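import Pool.Agent.Q81.JN.Stm

/-!
Project JN (helper81), job PT: the perturbation estimate.
-/

set_option autoImplicit false

open Complex Metric Set Filter Topology

namespace Pool.Agent.Q76.JN

open Pool.Agent.Q81.JN

/-- partial sums -/
theorem sum_bound (a : ℕ → ℂ) (δ : ℝ) (h1 : a 1 = 0)
    (hδ : ∀ N : ℕ, ∑ k ∈ Finset.Icc 2 N, (k : ℝ) * ‖a k‖ ≤ δ) (c : ℕ → ℂ) (K : ℝ) (hK : 0 ≤ K)
    (hc : ∀ n : ℕ, 1 ≤ n → ‖c n‖ ≤ ((n : ℝ) + 1) * K) (z S : ℂ) (hz : ‖z‖ < 1)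
    (hS : HasSum (fun n : ℕ => c n * a (n + 1) * z ^ (n + 1)) S) :
    ‖S‖ ≤ δ * ‖z‖ ^ 2 * K := by
  have ht := hS.tendsto_sum_nat
  refine le_of_tendsto ht.norm (Eventually.of_forall fun N => ?_)
  have hterm : ∀ n ∈ Finset.range N, ‖c n * a (n + 1) * z ^ (n + 1)‖ ≤
      (((n + 1 : ℕ) : ℝ) * ‖a (n + 1)‖) * (‖z‖ ^ 2 * K) := by
    intro n _
    rcases Nat.eq_zero_or_pos n with h0 | h0
    · subst h0
      simp [h1]
    · rw [norm_mul, norm_mul, norm_pow]
      have hz2 : ‖z‖ ^ (n + 1) ≤ ‖z‖ ^ 2 :=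
        pow_le_pow_of_le_one (norm_nonneg _) hz.le (by omega)
      calc ‖c n‖ * ‖a (n + 1)‖ * ‖z‖ ^ (n + 1)
          ≤ (((n : ℝ) + 1) * K) * ‖a (n + 1)‖ * ‖z‖ ^ 2 := by
            refine mul_le_mul (mul_le_mul_of_nonneg_right (hc n h0) (norm_nonneg _)) hz2
              (by positivity) (by positivity)
        _ = (((n + 1 : ℕ) : ℝ) * ‖a (n + 1)‖) * (‖z‖ ^ 2 * K) := by
            push_cast
            ring
  have hsum : ∑ n ∈ Finset.range N, (((n + 1 : ℕ) : ℝ) * ‖a (n + 1)‖) ≤ δ := by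
    have h2 : ∀ M : ℕ, ∑ n ∈ Finset.range M, (((n + 1 : ℕ) : ℝ) * ‖a (n + 1)‖) =
        ∑ k ∈ Finset.Icc 2 M, (k : ℝ) * ‖a k‖ := by
      intro M
      induction M with
      | zero => simp
      | succ m ih =>
        rw [Finset.sum_range_succ, ih]
        rcases Nat.eq_zero_or_pos m with h0 | h0
        · subst h0
          simp [h1]
        · rw [Finset.sum_Icc_succ_top (by omega)]
    rw [h2]
    exact hδ N
  calc ‖∑ n ∈ Finset.range N, c n * a (n + 1) * z ^ (n + 1)‖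
      ≤ ∑ n ∈ Finset.range N, ‖c n * a (n + 1) * z ^ (n + 1)‖ := norm_sum_le _ _
    _ ≤ ∑ n ∈ Finset.range N, (((n + 1 : ℕ) : ℝ) * ‖a (n + 1)‖) * (‖z‖ ^ 2 * K) :=
        Finset.sum_le_sum hterm
    _ = (∑ n ∈ Finset.range N, (((n + 1 : ℕ) : ℝ) * ‖a (n + 1)‖)) * (‖z‖ ^ 2 * K) := by
        rw [Finset.sum_mul]
    _ ≤ δ * (‖z‖ ^ 2 * K) := mul_le_mul_of_nonneg_right hsum (by positivity)
    _ = δ * ‖z‖ ^ 2 * K := by ring

/-- The perturbation estimate. -/
theorem pt : S_PT := by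
  intro δ f g hf hg z hz
  obtain ⟨hgA, hgs⟩ := hg
  have hfd : DifferentiableOn ℂ f (ball 0 1) := hf.diff
  have hgd : DifferentiableOn ℂ g (ball 0 1) := hgA.diff
  set h : ℂ → ℂ := fun w => g w - f w with hh
  have hd : DifferentiableOn ℂ h (ball 0 1) := hgd.sub hfd
  have hz1 : ‖z‖ < 1 := by simpa using hz
  have h0 : (0 : ℂ) ∈ ball (0 : ℂ) 1 := by simp
  have hnf : ball (0 : ℂ) 1 ∈ 𝓝 (0 : ℂ) := isOpen_ball.mem_nhds h0
  have hca : ∀ n : ℕ, iteratedDeriv n h 0 = iteratedDeriv n g 0 - iteratedDeriv n f 0 := by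
    intro n
    have e1 : ContDiffAt ℂ n g 0 := (hgd.analyticAt hnf).contDiffAt
    have e2 : ContDiffAt ℂ n f 0 := (hfd.analyticAt hnf).contDiffAt
    exact iteratedDeriv_fun_sub e1 e2
  set a : ℕ → ℂ := fun n => coef h n with ha
  have hsub : ∀ n, a n = coef g n - coef f n := by
    intro n
    simp only [ha, coef, hca, sub_div]
  have ha0 : a 0 = 0 := by
    rw [hsub]
    simp [coef, hgA.map_zero, hf.map_zero]
  have ha1 : a 1 = 0 := by
    rw [hsub]
    simp [coef, iteratedDeriv_one, hgA.deriv_zero, hf.deriv_zero]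
  have hδ : ∀ N : ℕ, ∑ k ∈ Finset.Icc 2 N, (k : ℝ) * ‖a k‖ ≤ δ := by
    intro N
    refine le_trans (le_of_eq ?_) (hgs N)
    refine Finset.sum_congr rfl fun k _ => ?_
    rw [hsub, norm_sub_rev]
  -- the Taylor series of `h`
  have hT := Complex.hasSum_taylorSeries_on_ball hd hz
  have e0 : (fun n : ℕ => ((n.factorial : ℂ))⁻¹ • (z - 0) ^ n • iteratedDeriv n h 0) =
      fun n : ℕ => a n * z ^ n := by
    funext n
    simp only [ha, coef, smul_eq_mul, sub_zero]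
    ring
  have hT0 : HasSum (fun n : ℕ => a n * z ^ n) (h z) := by
    rw [← e0]
    exact hT
  have hT1 : HasSum (fun n : ℕ => (1 : ℂ) * a (n + 1) * z ^ (n + 1)) (h z) := by
    have e1 : (fun n : ℕ => (1 : ℂ) * a (n + 1) * z ^ (n + 1)) =
        fun n : ℕ => (fun k : ℕ => a k * z ^ k) (n + 1) := by
      funext n
      rw [one_mul]
    have e7 := (hasSum_nat_add_iff' (f := fun k : ℕ => a k * z ^ k) 1).2 hT0
    rw [e1]
    simpa [ha0] using e7
  have hdd : DifferentiableOn ℂ (deriv h) (ball 0 1) := hd.deriv isOpen_ball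
  have hD := Complex.hasSum_taylorSeries_on_ball hdd hz
  have e2 : (fun n : ℕ => z * (((n.factorial : ℂ))⁻¹ • (z - 0) ^ n •
      iteratedDeriv n (deriv h) 0)) = fun n : ℕ => (((n : ℂ) + 1) * a (n + 1)) * z ^ (n + 1) := by
    funext n
    rw [← iteratedDeriv_succ']
    simp only [ha, coef, smul_eq_mul, sub_zero, Nat.factorial_succ, Nat.cast_mul, Nat.cast_add,
      Nat.cast_one]
    have : ((n : ℂ) + 1) ≠ 0 := by exact_mod_cast Nat.succ_ne_zero n
    have h2 : (n.factorial : ℂ) ≠ 0 := by exact_mod_cast Nat.factorial_ne_zero n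
    field_simp
    try ring
  have hT2 : HasSum (fun n : ℕ => (((n : ℂ) + 1) * a (n + 1)) * z ^ (n + 1)) (z * deriv h z) := by
    rw [← e2]
    exact hD.mul_left z
  have hdz : deriv h z = deriv g z - deriv f z := by
    have hnz : ball (0 : ℂ) 1 ∈ 𝓝 z := isOpen_ball.mem_nhds hz
    exact deriv_fun_sub (hgd.differentiableAt hnz) (hfd.differentiableAt hnz)
  refine ⟨fun t => ?_, ?_⟩
  · have hT3 : HasSum (fun n : ℕ => (((n : ℂ) + 1) - I * (t : ℂ)) * a (n + 1) * z ^ (n + 1))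
        (z * deriv h z - I * (t : ℂ) * h z) := by
      have e3 : (fun n : ℕ => (((n : ℂ) + 1) - I * (t : ℂ)) * a (n + 1) * z ^ (n + 1)) =
          fun n : ℕ => (((n : ℂ) + 1) * a (n + 1)) * z ^ (n + 1) -
            I * (t : ℂ) * ((1 : ℂ) * a (n + 1) * z ^ (n + 1)) := by
        funext n
        ring
      rw [e3]
      exact hT2.sub (hT1.mul_left _)
    have hb := sum_bound a δ ha1 hδ (fun n : ℕ => ((n : ℂ) + 1) - I * (t : ℂ))
      (Real.sqrt (1 + t ^ 2 / 4)) (Real.sqrt_nonneg _) ?_ z _ hz1 hT3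
    · have e4 : z * deriv g z - I * (t : ℂ) * g z - (z * deriv f z - I * (t : ℂ) * f z) =
          z * deriv h z - I * (t : ℂ) * h z := by
        rw [hdz, hh]
        ring
      rw [e4]
      exact hb
    · intro n hn
      have hn1 : (1 : ℝ) ≤ n := by exact_mod_cast hn
      have e5 : ‖((n : ℂ) + 1) - I * (t : ℂ)‖ = Real.sqrt (((n : ℝ) + 1) ^ 2 + t ^ 2) := by
        rw [Complex.norm_def, Complex.normSq_apply]
        congr 1
        simp
        ring
      rw [e5]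
      have e6 : ((n : ℝ) + 1) * Real.sqrt (1 + t ^ 2 / 4) =
          Real.sqrt (((n : ℝ) + 1) ^ 2 * (1 + t ^ 2 / 4)) := by
        rw [Real.sqrt_mul (by positivity), Real.sqrt_sq (by positivity)]
      rw [e6]
      apply Real.sqrt_le_sqrt
      have h4 : (4 : ℝ) ≤ ((n : ℝ) + 1) ^ 2 := by nlinarith
      nlinarith [mul_nonneg (sub_nonneg.2 h4) (sq_nonneg t)]
  · have hb := sum_bound a δ ha1 hδ (fun _ : ℕ => (1 : ℂ)) 1 zero_le_one ?_ z _ hz1 hT1
    · rw [mul_one] at hb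
      exact hb
    · intro n _
      rw [norm_one, mul_one]
      have : (0 : ℝ) ≤ n := Nat.cast_nonneg n
      linarith

end Pool.Agent.Q76.JN

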